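import Pool.Agent.helper1.VD.SpecA2

/-!
# Row AWXH (project VD, block A2): the blocks of the derivative of the Hamiltonian field
-/

set_option autoImplicit false

open scoped ContDiff Topology InnerProductSpace ComplexConjugate ENNReal
open MeasureTheory Filter Set

namespace Pool.Agent.VD

open Pool.Agent.VQ (CH)

variable {d : ℕ}

theorem AWXH_single (u : V d) (i : Fin d) : ⟪u, EuclideanSpace.single i (1 : ℝ)⟫_ℝ = u i := by
  rw [EuclideanSpace.inner_single_right]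
  simp

theorem AWXH_symD (h : V d → V d →L[ℝ] V d) (hs : ContDiff ℝ ∞ h) (hsym : ∀ x u v, ⟪h x u, v⟫_ℝ = ⟪u, h x v⟫_ℝ) (x w u v : V d) :
    ⟪fderiv ℝ h x w u, v⟫_ℝ = ⟪u, fderiv ℝ h x w v⟫_ℝ := by
  have hd : HasFDerivAt h (fderiv ℝ h x) x := ((hs.differentiable (by simp)) x).hasFDerivAt
  have h1 := (hd.clm_apply (hasFDerivAt_const u x)).inner ℝ (hasFDerivAt_const v x)
  have h2 := (hasFDerivAt_const u x).inner ℝ (hd.clm_apply (hasFDerivAt_const v x))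
  have he : (fun y => ⟪h y u, v⟫_ℝ) = fun y => ⟪u, h y v⟫_ℝ := funext fun y => hsym y u v
  rw [he] at h1
  have h3 := h1.unique h2
  have h4 := congrArg (fun L => L w) h3
  simpa using h4

theorem AWXH_cf {F : Type*} [NormedAddCommGroup F] [NormedSpace ℝ F] (f : V d → F) (f' : V d →L[ℝ] F) (q : P d) (h : HasFDerivAt f f' q.1) :
    HasFDerivAt (fun p : P d => f p.1) (f'.comp (ContinuousLinearMap.fst ℝ (V d) (V d))) q := HasFDerivAt.comp q h hasFDerivAt_fst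

theorem AWXH_fst (hGIN : GIN_stmt) (hGXH : GXH_stmt) (G : V d → V d →L[ℝ] V d) (hG : IsMetric G) (q v : P d) :
    (fderiv ℝ (XH G) q v).1 = fderiv ℝ (IG G) q.1 v.1 q.2 + IG G q.1 v.2 := by
  have hs : ContDiff ℝ ∞ (IG G) := (hGIN d G hG).2.2.2.1
  have hX : HasFDerivAt (XH G) (fderiv ℝ (XH G) q) q := (((hGXH d G hG).2.1.differentiable (by simp)) q).hasFDerivAt
  have h1 : HasFDerivAt (fun p : P d => (XH G p).1) ((ContinuousLinearMap.fst ℝ (V d) (V d)).comp (fderiv ℝ (XH G) q)) q := hX.fst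
  have hI : HasFDerivAt (IG G) (fderiv ℝ (IG G) q.1) q.1 := ((hs.differentiable (by simp)) q.1).hasFDerivAt
  have hd : HasFDerivAt (fun p : P d => IG G p.1) ((fderiv ℝ (IG G) q.1).comp (ContinuousLinearMap.fst ℝ (V d) (V d))) q := HasFDerivAt.comp q hI hasFDerivAt_fst
  have h2 := hd.clm_apply (hasFDerivAt_snd (𝕜 := ℝ) (E := V d) (F := V d) (p := q))
  have h3 := h1.unique h2
  have h4 := congrArg (fun L => L v) h3
  have h5 : (fderiv ℝ (XH G) q v).1 = IG G q.1 v.2 + fderiv ℝ (IG G) q.1 v.1 q.2 := by simpa using h4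
  rw [h5, add_comm]

theorem AWXH_snd (hGIN : GIN_stmt) (hGXH : GXH_stmt) (G : V d → V d →L[ℝ] V d) (hG : IsMetric G) (q v : P d) (w : V d) :
    ⟪(fderiv ℝ (XH G) q v).2, w⟫_ℝ = -(1 / 2) * (⟪fderiv ℝ (fderiv ℝ (IG G)) q.1 v.1 w q.2, q.2⟫_ℝ + ⟪fderiv ℝ (IG G) q.1 w v.2, q.2⟫_ℝ + ⟪fderiv ℝ (IG G) q.1 w q.2, v.2⟫_ℝ) := by
  have hs : ContDiff ℝ ∞ (IG G) := (hGIN d G hG).2.2.2.1
  have hs1 : ContDiff ℝ ∞ (fderiv ℝ (IG G)) := hs.fderiv_right (by simp)
  have hX : HasFDerivAt (XH G) (fderiv ℝ (XH G) q) q := (((hGXH d G hG).2.1.differentiable (by simp)) q).hasFDerivAt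
  have h1 := (hX.snd).inner ℝ (hasFDerivAt_const w q)
  have hI : HasFDerivAt (fderiv ℝ (IG G)) (fderiv ℝ (fderiv ℝ (IG G)) q.1) q.1 := ((hs1.differentiable (by simp)) q.1).hasFDerivAt
  have hd := AWXH_cf (fderiv ℝ (IG G)) _ q hI
  have hsn := hasFDerivAt_snd (𝕜 := ℝ) (E := V d) (F := V d) (p := q)
  have h2 := (((hd.clm_apply (hasFDerivAt_const w q)).clm_apply hsn).inner ℝ hsn).const_mul (-(1 / 2) : ℝ)
  have he : (fun p : P d => ⟪(XH G p).2, w⟫_ℝ) = fun p : P d => -(1 / 2) * ⟪fderiv ℝ (IG G) p.1 w p.2, p.2⟫_ℝ := by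
    funext p
    rw [(hGXH d G hG).2.2.2.2.1 p w]
    ring
  rw [he] at h1
  have h3 := h1.unique h2
  have h4 := congrArg (fun L => L v) h3
  simp at h4
  rw [inner_add_left] at h4
  rw [h4]
  ring

theorem AWXH_swap (hGIN : GIN_stmt) (G : V d → V d →L[ℝ] V d) (hG : IsMetric G) (x u v : V d) :
    fderiv ℝ (fderiv ℝ (IG G)) x u v = fderiv ℝ (fderiv ℝ (IG G)) x v u := by
  have hs : ContDiff ℝ ∞ (IG G) := (hGIN d G hG).2.2.2.1
  have h := (hs.contDiffAt (x := x)).isSymmSndFDerivAt (by rw [minSmoothness_of_isRCLikeNormedField]; exact WithTop.coe_le_coe.mpr le_top)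
  exact h u v

theorem AWXH_proof (hGIN : GIN_stmt) (hGXH : GXH_stmt) : AWXH_stmt := by
  intro d G hG q
  have hs : ContDiff ℝ ∞ (IG G) := (hGIN d G hG).2.2.2.1
  have hsym := (hGIN d G hG).2.1
  have hA : ∀ i j, WA (fderiv ℝ (XH G) q) i j = (((fderiv ℝ (IG G) q.1 (EuclideanSpace.single j 1) q.2) i : ℝ) : ℂ) := by
    intro i j
    show ((((fderiv ℝ (XH G) q (EuclideanSpace.single j 1, 0)).1 i : ℝ)) : ℂ) = _
    rw [AWXH_fst hGIN hGXH G hG q]
    simp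
  have hB : ∀ i j, WB (fderiv ℝ (XH G) q) i j = (((IG G q.1 (EuclideanSpace.single j 1)) i : ℝ) : ℂ) := by
    intro i j
    show ((((fderiv ℝ (XH G) q (0, EuclideanSpace.single j 1)).1 i : ℝ)) : ℂ) = _
    rw [AWXH_fst hGIN hGXH G hG q]
    simp
  have hC : ∀ i j, WC (fderiv ℝ (XH G) q) i j = ((-(1 / 2) * ⟪fderiv ℝ (fderiv ℝ (IG G)) q.1 (EuclideanSpace.single i 1) (EuclideanSpace.single j 1) q.2, q.2⟫_ℝ : ℝ) : ℂ) := by
    intro i j
    show ((((fderiv ℝ (XH G) q (EuclideanSpace.single j 1, 0)).2 i : ℝ)) : ℂ) = _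
    rw [← AWXH_single, AWXH_snd hGIN hGXH G hG q, AWXH_swap hGIN G hG q.1 (EuclideanSpace.single j 1) (EuclideanSpace.single i 1)]
    simp
  have hD : WD (fderiv ℝ (XH G) q) = -(WA (fderiv ℝ (XH G) q)).transpose := by
    ext i j
    rw [Matrix.neg_apply, Matrix.transpose_apply, hA j i]
    show ((((fderiv ℝ (XH G) q (0, EuclideanSpace.single j 1)).2 i : ℝ)) : ℂ) = _
    rw [← AWXH_single, AWXH_snd hGIN hGXH G hG q, ← AWXH_single (fderiv ℝ (IG G) q.1 (EuclideanSpace.single i 1) q.2) j]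
    have h1 := AWXH_symD (IG G) hs hsym q.1 (EuclideanSpace.single i 1) (EuclideanSpace.single j 1) q.2
    have h2 : ⟪fderiv ℝ (IG G) q.1 (EuclideanSpace.single i 1) (EuclideanSpace.single j 1), q.2⟫_ℝ = ⟪fderiv ℝ (IG G) q.1 (EuclideanSpace.single i 1) q.2, EuclideanSpace.single j 1⟫_ℝ := by
      rw [h1, real_inner_comm]
    rw [← Complex.ofReal_neg]
    congr 1
    simp only [map_zero, zero_apply, inner_zero_left]
    rw [h2]
    ring
  refine ⟨hA, hB, hC, hD, ?_, ?_⟩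
  · ext i j
    rw [Matrix.transpose_apply, hB, hB, ← AWXH_single (IG G q.1 (EuclideanSpace.single i 1)) j, ← AWXH_single (IG G q.1 (EuclideanSpace.single j 1)) i, hsym, real_inner_comm]
  · ext i j
    rw [Matrix.transpose_apply, hC, hC, AWXH_swap hGIN G hG]

end Pool.Agent.VD
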